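import Pool.Agent.X324.CF.Defs

/-!
# Divisors of homogeneous elements are homogeneous
-/

set_option autoImplicit false

namespace Pool.Agent.U201.CM

open Pool.Agent.X324.CF DirectSum

variable {ρ : ℕ} {R : Type*} [CommRing R] [Algebra ℂ R] {𝒜 : Cl ρ → Submodule ℂ R}
  [GradedAlgebra 𝒜]

/-- The component of a product of highest degree. -/
theorem comp_mul (a b : R) (s t : Finset (Cl ρ)) (γ δ : Cl ρ) (hγ : γ ∈ s) (hδ : δ ∈ t)
    (hs : a = ∑ i ∈ s, (decompose 𝒜 a i : R)) (ht : b = ∑ i ∈ t, (decompose 𝒜 b i : R))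
    (huniq : ∀ i ∈ s, ∀ k ∈ t, i + k = γ + δ → i = γ ∧ k = δ) :
    (decompose 𝒜 (a * b) (γ + δ) : R) = (decompose 𝒜 a γ : R) * (decompose 𝒜 b δ : R) := by
  have key : ∀ i k : Cl ρ, (decompose 𝒜 ((decompose 𝒜 a i : R) * (decompose 𝒜 b k : R)) (γ + δ) : R)
      = if i + k = γ + δ then (decompose 𝒜 a i : R) * (decompose 𝒜 b k : R) else 0 := by
    intro i k
    have hm : (decompose 𝒜 a i : R) * (decompose 𝒜 b k : R) ∈ 𝒜 (i + k) :=
      SetLike.mul_mem_graded (decompose 𝒜 a i).2 (decompose 𝒜 b k).2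
    split_ifs with h
    · rw [← h]
      exact decompose_of_mem_same 𝒜 hm
    · exact decompose_of_mem_ne 𝒜 hm h
  have h1 : a * b = ∑ i ∈ s, ∑ k ∈ t, (decompose 𝒜 a i : R) * (decompose 𝒜 b k : R) := by
    conv_lhs => rw [hs, ht]
    rw [Finset.sum_mul_sum]
  rw [h1, decompose_sum, DFinsupp.finsetSum_apply, AddSubmonoidClass.coe_finsetSum]
  rw [Finset.sum_eq_single γ]
  · rw [decompose_sum, DFinsupp.finsetSum_apply, AddSubmonoidClass.coe_finsetSum,
      Finset.sum_eq_single δ]
    · rw [key, if_pos rfl]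
    · intro k hk hne
      rw [key, if_neg]
      intro h
      exact hne (huniq γ hγ k hk h).2
    · exact fun h => absurd hδ h
  · intro i hi hne
    rw [decompose_sum, DFinsupp.finsetSum_apply, AddSubmonoidClass.coe_finsetSum]
    refine Finset.sum_eq_zero fun k hk => ?_
    rw [key, if_neg]
    intro h
    exact hne (huniq i hi k hk h).1
  · exact fun h => absurd hγ h

open Classical in
/-- An element is the sum of its components. -/
theorem sum_comp (a : R) : a = ∑ i ∈ (decompose 𝒜 a).support, (decompose 𝒜 a i : R) :=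
  (sum_support_decompose 𝒜 a).symm

open Classical in
theorem comp_ne {a : R} {i : Cl ρ} (hi : i ∈ (decompose 𝒜 a).support) :
    (decompose 𝒜 a i : R) ≠ 0 := by
  rw [DFinsupp.mem_support_iff] at hi
  exact fun h => hi (Subtype.ext h)

open Classical in
/-- A divisor of a nonzero homogeneous element is homogeneous. -/
theorem homog_of_mul [IsDomain R] {a b : R} {β : Cl ρ} (hab : a * b ∈ 𝒜 β) (h0 : a * b ≠ 0) :
    ∃ γ, a ∈ 𝒜 γ := by
  have ha0 : a ≠ 0 := left_ne_zero_of_mul h0
  have hb0 : b ≠ 0 := right_ne_zero_of_mul h0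
  set s := (decompose 𝒜 a).support with hs
  set t := (decompose 𝒜 b).support with ht
  have hsne : s.Nonempty := by
    rw [Finset.nonempty_iff_ne_empty]
    intro h
    apply ha0
    rw [sum_comp (𝒜 := 𝒜) a, ← hs, h, Finset.sum_empty]
  have htne : t.Nonempty := by
    rw [Finset.nonempty_iff_ne_empty]
    intro h
    apply hb0
    rw [sum_comp (𝒜 := 𝒜) b, ← ht, h, Finset.sum_empty]
  let o : Cl ρ → Lex (Fin ρ → ℤ) := fun i => toLex i
  have hoadd : ∀ i k, o (i + k) = o i + o k := fun _ _ => rfl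
  have hoinj : ∀ {i k}, o i = o k → i = k := fun h => toLex.injective h
  obtain ⟨γ, hγ, hγm⟩ := Finset.exists_max_image s o hsne
  obtain ⟨δ, hδ, hδm⟩ := Finset.exists_max_image t o htne
  obtain ⟨γ', hγ', hγ'm⟩ := Finset.exists_min_image s o hsne
  obtain ⟨δ', hδ', hδ'm⟩ := Finset.exists_min_image t o htne
  have hmax : γ + δ = β := by
    by_contra hne
    have h1 := comp_mul (𝒜 := 𝒜) a b s t γ δ hγ hδ (sum_comp a) (sum_comp b) (by
      intro i hi k hk h
      have e1 := hγm i hi
      have e2 := hδm k hk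
      have e3 : o i + o k = o γ + o δ := by rw [← hoadd, ← hoadd, h]
      have e4 : o i = o γ := le_antisymm e1 (by
        by_contra hcon
        push Not at hcon
        have := add_lt_add_of_lt_of_le hcon e2
        exact absurd e3 this.ne)
      have e5 : o k = o δ := by rw [e4] at e3; exact add_left_cancel e3
      exact ⟨hoinj e4, hoinj e5⟩)
    rw [decompose_of_mem_ne 𝒜 hab (Ne.symm hne)] at h1
    exact mul_ne_zero (comp_ne hγ) (comp_ne hδ) h1.symm
  have hmin : γ' + δ' = β := by
    by_contra hne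
    have h1 := comp_mul (𝒜 := 𝒜) a b s t γ' δ' hγ' hδ' (sum_comp a) (sum_comp b) (by
      intro i hi k hk h
      have e1 := hγ'm i hi
      have e2 := hδ'm k hk
      have e3 : o i + o k = o γ' + o δ' := by rw [← hoadd, ← hoadd, h]
      have e4 : o i = o γ' := le_antisymm (by
        by_contra hcon
        push Not at hcon
        have := add_lt_add_of_lt_of_le hcon e2
        exact absurd e3.symm this.ne) e1
      have e5 : o k = o δ' := by rw [e4] at e3; exact add_left_cancel e3
      exact ⟨hoinj e4, hoinj e5⟩)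
    rw [decompose_of_mem_ne 𝒜 hab (Ne.symm hne)] at h1
    exact mul_ne_zero (comp_ne hγ') (comp_ne hδ') h1.symm
  have hsum : o γ' + o δ' = o γ + o δ := by rw [← hoadd, ← hoadd, hmin, hmax]
  have e1 := hγm γ' hγ'
  have e2 := hδm δ' hδ'
  have e4 : o γ' = o γ := le_antisymm e1 (by
    by_contra hcon
    push Not at hcon
    have := add_lt_add_of_lt_of_le hcon e2
    exact absurd hsum this.ne)
  refine ⟨γ, ?_⟩
  have hall : ∀ i ∈ s, i = γ := by
    intro i hi
    apply hoinj
    refine le_antisymm (hγm i hi) ?_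
    rw [← e4]
    exact hγ'm i hi
  rw [sum_comp (𝒜 := 𝒜) a]
  refine Submodule.sum_mem _ fun i hi => ?_
  have := hall i hi
  subst this
  exact (decompose 𝒜 a i).2

end Pool.Agent.U201.CM
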