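import Pool.Agent.X324.CF.Defs

/-!
# Varieties `F` whose movable cone is spanned by finitely many movable classes: definitions
-/

set_option autoImplicit false

namespace Pool.Agent.U201.CM

open Pool.Agent.X324.CF

section Cox

variable {ρ : ℕ} {R : Type*} [CommRing R] [Algebra ℂ R] (𝒜 : Cl ρ → Submodule ℂ R)

/-- The class `β` is movable on `F`: the sections of some multiple `O_F(m β)`, `m > 0`, have no common
divisor. (The effective divisors of `F` are the divisors of the nonzero homogeneous elements of `R`;
so the base locus of `O_F(m β)` has codimension at least two. A divisor in `R` of a nonzero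
homogeneous element is homogeneous.) -/
def MovableF (β : Cl ρ) : Prop :=
  ∃ m : ℕ, 0 < m ∧ ∀ h : R, (∀ r ∈ 𝒜 (m • β), h ∣ r) → IsUnit h

/-- `F` is a normal projective variety, `ℚ`-factorial with free class group `Cl(F) = ℤ^ρ`, such that
the movable cone is spanned by the finitely many movable classes `w i`; `u` is the class of an ample
divisor. Here `R = ⨁ H⁰(F, O_F(β))` is the total coordinate ring of `F`, which is factorial; it need
not be finitely generated. The conditions say: the only functions on `F` are the constants, the sheaf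
`O_F(β)` is trivial only for `β = 0`, every class becomes effective and movable when a multiple of `u`
is added, the `w i` are nonzero movable classes, and all movable classes are in the cone which they
span. -/
structure IsMovPolyhedral {n : ℕ} (w : Fin n → Cl ρ) (u : Cl ρ) : Prop where
  ufd : UniqueFactorizationMonoid R
  const : ∀ r ∈ 𝒜 0, ∃ c : ℂ, r = algebraMap ℂ R c
  unit : ∀ β, ∀ r ∈ 𝒜 β, IsUnit r → β = 0
  sections : ∀ β : Cl ρ, ∃ m : ℕ, (∃ r ∈ 𝒜 (β + m • u), r ≠ 0) ∧ ∃ r ∈ 𝒜 (m • u), r ≠ 0
  ample : ∀ β : Cl ρ, ∃ m : ℕ, MovableF 𝒜 (β + m • u)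
  ne_zero : ∀ i, w i ≠ 0
  movable : ∀ i, MovableF 𝒜 (w i)
  span : ∀ β : Cl ρ, MovableF 𝒜 β → ∃ c : Fin n → ℝ, (∀ i, 0 ≤ c i) ∧
    ∀ k, (β k : ℝ) = ∑ i, c i * w i k

end Cox

end Pool.Agent.U201.CM
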