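import Pool.Agent.U201.CM.Homog
import Pool.Agent.U201.CM.MovDefs
import Pool.Agent.X324.CF.Plus2

/-!
# Varieties `F` whose movable cone is spanned by finitely many movable classes
-/

set_option autoImplicit false

namespace Pool.Agent.U201.CM

open Finset
open Pool.Agent.W594.SYZ2 Pool.Agent.W594.SYZ2.TQ Pool.Agent.TH735.AQ Pool.Agent.X324.CF

section Mov

variable {ρ n : ℕ} {R : Type*} [CommRing R] [IsDomain R] [Algebra ℂ R] {𝒜 : Cl ρ → Submodule ℂ R}
  [GradedAlgebra 𝒜] {w : Fin n → Cl ρ} {u : Cl ρ}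

omit [GradedAlgebra 𝒜] in
/-- There is a nonzero section. -/
theorem exists_ne {β : Cl ρ} (h : ∀ h : R, (∀ r ∈ 𝒜 β, h ∣ r) → IsUnit h) :
    ∃ r ∈ 𝒜 β, r ≠ 0 := by
  by_contra hcon
  push Not at hcon
  have h1 := h 0 fun r hr => by rw [hcon r hr]
  exact not_isUnit_zero h1

omit [GradedAlgebra 𝒜] in
/-- A nonunit divides no element of a piece without common divisor: prime version. -/
theorem exists_prime_factor [UniqueFactorizationMonoid R] {h : R} (h0 : h ≠ 0) (hu : ¬ IsUnit h) :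
    ∃ p, Prime p ∧ p ∣ h := by
  obtain ⟨p, hp, hd⟩ := WfDvdMonoid.exists_irreducible_factor hu h0
  exact ⟨p, hp.prime, hd⟩

theorem MovableF.zero : MovableF 𝒜 0 :=
  ⟨1, one_pos, fun h hh => isUnit_of_dvd_one (hh 1 (by
    rw [smul_zero]; exact SetLike.GradedOne.one_mem))⟩

theorem MovableF.add [UniqueFactorizationMonoid R] {β β' : Cl ρ} (h : MovableF 𝒜 β)
    (h' : MovableF 𝒜 β') : MovableF 𝒜 (β + β') := by
  obtain ⟨m, hm, h1⟩ := h
  obtain ⟨m', hm', h2⟩ := h'
  have e : (m * m') • (β + β') = m' • (m • β) + m • (m' • β') := by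
    rw [smul_add, mul_comm m m', mul_smul, mul_comm m' m, mul_smul]
  have hmem : ∀ r ∈ 𝒜 (m • β), ∀ s ∈ 𝒜 (m' • β'), r ^ m' * s ^ m ∈ 𝒜 ((m * m') • (β + β')) := by
    intro r hr s hs
    rw [e]
    exact SetLike.mul_mem_graded (SetLike.pow_mem_graded m' hr) (SetLike.pow_mem_graded m hs)
  refine ⟨m * m', Nat.mul_pos hm hm', fun h hh => ?_⟩
  by_contra hcon
  obtain ⟨r₀, hr₀, hr₀'⟩ := exists_ne h1
  obtain ⟨s₀, hs₀, hs₀'⟩ := exists_ne h2
  have hne : h ≠ 0 := by
    rintro rfl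
    have h3 := hh _ (hmem r₀ hr₀ s₀ hs₀)
    rw [zero_dvd_iff] at h3
    exact mul_ne_zero (pow_ne_zero _ hr₀') (pow_ne_zero _ hs₀') h3
  obtain ⟨p, hp, hph⟩ := exists_prime_factor hne hcon
  obtain ⟨r, hr, hrp⟩ : ∃ r ∈ 𝒜 (m • β), ¬ p ∣ r := by
    by_contra hno
    push Not at hno
    exact hp.not_unit (h1 p hno)
  obtain ⟨s, hs, hsp⟩ : ∃ s ∈ 𝒜 (m' • β'), ¬ p ∣ s := by
    by_contra hno
    push Not at hno
    exact hp.not_unit (h2 p hno)
  rcases hp.dvd_or_dvd (hph.trans (hh _ (hmem r hr s hs))) with h3 | h3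
  · exact hrp (hp.dvd_of_dvd_pow h3)
  · exact hsp (hp.dvd_of_dvd_pow h3)

theorem MovableF.nsmul [UniqueFactorizationMonoid R] {β : Cl ρ} (h : MovableF 𝒜 β) (k : ℕ) :
    MovableF 𝒜 (k • β) := by
  induction k with
  | zero => rw [zero_smul]; exact MovableF.zero
  | succ k ih => rw [succ_nsmul]; exact ih.add h

theorem MovableF.sum [UniqueFactorizationMonoid R] {ι : Type*} (s : Finset ι) (f : ι → Cl ρ)
    (h : ∀ i ∈ s, MovableF 𝒜 (f i)) : MovableF 𝒜 (∑ i ∈ s, f i) := by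
  classical
  induction s using Finset.induction_on with
  | empty => rw [Finset.sum_empty]; exact MovableF.zero
  | insert i s hi ih =>
    rw [Finset.sum_insert hi]
    exact (h i (Finset.mem_insert_self _ _)).add
      (ih fun j hj => h j (Finset.mem_insert_of_mem hj))

omit [IsDomain R] [GradedAlgebra 𝒜] in
theorem IsMovPolyhedral.mem_CI (D : IsMovPolyhedral 𝒜 w u) {β : Cl ρ} (h : MovableF 𝒜 β) :
    rv β ∈ CI w Finset.univ := by
  obtain ⟨c, hc, h1⟩ := D.span β h
  refine ⟨c, hc, funext fun k => ?_⟩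
  rw [Finset.sum_apply]
  exact h1 k

theorem IsMovPolyhedral.base (D : IsMovPolyhedral 𝒜 w u) : Base 𝒜 w where
  gens := fun H hH => by
    rw [eq_top_iff]
    intro β _
    obtain ⟨m, h1, h2⟩ := D.sections β
    have h3 := H.sub_mem (hH _ h1) (hH _ h2)
    rwa [add_sub_cancel_right] at h3
  pointed := fun c hc => by
    classical
    have := D.ufd
    by_contra hne
    have hex : ∃ i, c i ≠ 0 := by
      by_contra hcon
      push Not at hcon
      exact hne (funext hcon)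
    obtain ⟨i, hi⟩ := hex
    have hi1 : 1 ≤ c i := Nat.one_le_iff_ne_zero.2 hi
    let d : Fin n → ℕ := fun k => if k = i then c k - 1 else c k
    have hsum : w i + ∑ k, d k • w k = 0 := by
      have h1 : ∀ k, c k • w k = (if k = i then w i else 0) + d k • w k := by
        intro k
        by_cases hk : k = i
        · subst hk
          simp only [d, if_true]
          have h2 : c k = 1 + (c k - 1) := by omega
          conv_lhs => rw [h2]
          rw [add_smul, one_smul]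
        · simp only [d, if_neg hk, zero_add]
      rw [Finset.sum_congr rfl fun k _ => h1 k, Finset.sum_add_distrib] at hc
      rwa [Finset.sum_ite_eq' Finset.univ i fun _ => w i, if_pos (Finset.mem_univ i)] at hc
    have hopp : MovableF 𝒜 (-w i) := by
      have h1 : -w i = ∑ k, d k • w k := by
        rw [neg_eq_iff_add_eq_zero]
        exact hsum
      rw [h1]
      exact MovableF.sum _ _ fun k _ => (D.movable k).nsmul _
    obtain ⟨m, hm, h1⟩ := D.movable i
    obtain ⟨m', hm', h2⟩ := hopp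
    obtain ⟨r, hr, hr0⟩ := exists_ne h1
    obtain ⟨s, hs, hs0⟩ := exists_ne h2
    have hr' := SetLike.pow_mem_graded m' hr
    have hs' := SetLike.pow_mem_graded m hs
    have h3 : r ^ m' * s ^ m ∈ 𝒜 0 := by
      have h4 := SetLike.mul_mem_graded hr' hs'
      have h5 : m' • (m • w i) + m • (m' • -w i) = 0 := by
        rw [smul_neg, smul_neg, smul_smul, smul_smul, mul_comm m' m, add_neg_cancel]
      rwa [h5] at h4
    obtain ⟨a, ha⟩ := D.const _ h3
    have ha0 : a ≠ 0 := by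
      rintro rfl
      rw [map_zero] at ha
      exact mul_ne_zero (pow_ne_zero _ hr0) (pow_ne_zero _ hs0) ha
    have hunit : IsUnit (r ^ m' * s ^ m) := by
      rw [ha]
      exact (IsUnit.mk0 a ha0).map (algebraMap ℂ R)
    have h7 := D.unit _ _ hr' (isUnit_of_mul_isUnit_left hunit)
    rw [smul_smul] at h7
    refine D.ne_zero i ?_
    have h8 : m' * m ≠ 0 := (Nat.mul_pos hm' hm).ne'
    exact (smul_eq_zero.1 h7).resolve_left h8

theorem IsMovPolyhedral.fam (D : IsMovPolyhedral 𝒜 w u) : Fam w u {Finset.univ} where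
  univ := Finset.mem_singleton_self _
  ample := fun β => by
    obtain ⟨m, hm⟩ := D.ample β
    refine ⟨m, fun I hI => ?_⟩
    rw [Finset.mem_singleton] at hI
    rw [hI]
    exact D.mem_CI hm

omit [GradedAlgebra 𝒜] in
/-- The norms of the elements of a piece without common divisor have no common divisor. -/
theorem unit_of_dvd_nrm' [UniqueFactorizationMonoid R] {K : Subgroup (R ≃ₐ[ℂ] R)} [Fintype K]
    {β : Cl ρ} (h1 : ∀ h : R, (∀ r ∈ 𝒜 β, h ∣ r) → IsUnit h) {h : R}
    (hh : ∀ r ∈ 𝒜 β, h ∣ nrm K r) : IsUnit h := by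
  classical
  by_contra hcon
  obtain ⟨r₀, hr₀, hr₀'⟩ := exists_ne h1
  have hne : h ≠ 0 := by
    rintro rfl
    have h3 := hh _ hr₀
    rw [zero_dvd_iff] at h3
    exact nrm_ne_zero hr₀' h3
  obtain ⟨p, hp, hph⟩ := exists_prime_factor hne hcon
  -- one of the conjugates of `p` divides all elements
  have hprime : ∀ ψ : K, Prime (ψ.1.symm p) := fun ψ =>
    (MulEquiv.prime_iff (ψ.1.symm : R ≃* R)).2 hp
  have h2 : ∃ ψ : K, ∀ r ∈ 𝒜 β, ψ.1.symm p ∣ r := by
    by_contra hno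
    push Not at hno
    let sub : K → Submodule ℂ (𝒜 β) := fun ψ =>
      { carrier := {r | ψ.1.symm p ∣ r.1}
        add_mem' := fun ha hb => dvd_add ha hb
        zero_mem' := dvd_zero _
        smul_mem' := fun c r hr => by
          change ψ.1.symm p ∣ c • r.1
          rw [Algebra.smul_def]
          exact Dvd.dvd.mul_left hr _ }
    obtain ⟨r, hr⟩ := avoidC (Finset.univ : Finset K) sub (by
      intro ψ _ htop
      obtain ⟨r, hr, hr'⟩ := hno ψ
      apply hr'
      have h3 : (⟨r, hr⟩ : 𝒜 β) ∈ sub ψ := by rw [htop]; trivial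
      exact h3)
    have h4 := hph.trans (hh r.1 r.2)
    rw [nrm] at h4
    obtain ⟨φ, -, h5⟩ := (hp.dvd_finset_prod_iff _).1 h4
    obtain ⟨l, hl⟩ := h5
    refine hr φ (Finset.mem_univ _) ⟨φ.1.symm l, ?_⟩
    rw [← map_mul, ← hl]
    exact (φ.1.symm_apply_apply _).symm
  obtain ⟨ψ, hψ⟩ := h2
  exact (hprime ψ).not_unit (h1 _ hψ)

end Mov

variable {V E R : Type*} [NormedAddCommGroup V] [NormedSpace ℂ V] [FiniteDimensional ℂ V]
  [NormedAddCommGroup E] [NormedSpace ℂ E] [CommRing R] [IsDomain R]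
  [Algebra ℂ R] {ρ n : ℕ}
  {𝒜 : Cl ρ → Submodule ℂ R} [GradedAlgebra 𝒜] {Γ : Grp V R} {w : Fin n → Cl ρ}
  {u : Cl ρ} {j : E →ₗ[ℂ] V}

/-- The degree of a movable sheaf is movable on `F`. -/
theorem movable_deg {𝓛 : Sheaf 𝒜 Γ} (hm : 𝓛.IsMovable) : MovableF 𝒜 𝓛.deg := by
  have hsec : ∃ f, 𝓛.IsSection f ∧ ∃ v, f v ≠ 0 := by
    by_contra hcon
    push Not at hcon
    have h2 := hm 0 (fun _ => 0) (fun _ => Submodule.zero_mem _) (holo_const 0)
      (fun f hf v => by rw [hcon f hf v]) 0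
    exact not_isUnit_zero h2
  obtain ⟨f, hf, v, hv⟩ := hsec
  refine ⟨1, one_pos, fun h hh => ?_⟩
  rw [one_smul] at hh
  obtain ⟨l, hl⟩ := hh _ (hf.mem v)
  obtain ⟨γ, hγ⟩ := homog_of_mul (𝒜 := 𝒜) (a := h) (b := l) (β := 𝓛.deg)
    (by rw [← hl]; exact hf.mem v) (by rw [← hl]; exact hv)
  exact hm γ (fun _ => h) (fun _ => hγ) (holo_const h) (fun g hg v' => hh _ (hg.mem v')) 0

theorem good_mov (D : IsMovPolyhedral 𝒜 w u) (hQ : IsQuotient 𝒜 u Γ) :
    Good w {Finset.univ} (movable 𝒜 Γ j) where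
  sub := by
    rintro a ⟨𝓛, hc, hm⟩
    have h1 : ∃ f, 𝓛.IsSection f ∧ ∃ v, f v ≠ 0 := by
      by_contra hcon
      push Not at hcon
      have h2 := hm 0 (fun _ => 0) (fun _ => Submodule.zero_mem _) (holo_const 0)
        (fun f hf v => by rw [hcon f hf v]) 0
      exact not_isUnit_zero h2
    obtain ⟨f, hf, h0⟩ := h1
    have heff : a ∈ effective 𝒜 Γ j := ⟨𝓛, f, hc, hf, h0⟩
    have h3 : (val a).2 = rv 𝓛.deg := funext hc.2
    refine ⟨effective_form hQ heff, fun I hI => ?_⟩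
    rw [Finset.mem_singleton] at hI
    rw [hI, h3]
    exact D.mem_CI (movable_deg hm)
  bpf := fun _ hs _ ha => bpf_movable hs ha
  deg := by
    classical
    intro β hβ hI
    have := D.ufd
    have := hQ.fin_gal
    have : Fintype (gal Γ) := Fintype.ofFinite _
    obtain ⟨k, hk, c, -, hkc⟩ := exists_nat (hI _ (Finset.mem_singleton_self _))
    have hs : MovableF 𝒜 (k • β) := by
      rw [hkc]
      exact MovableF.sum _ _ fun i _ => (D.movable i).nsmul _
    obtain ⟨m, hm, h1⟩ := hs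
    rw [← mul_smul] at h1
    obtain ⟨a, ha1, ha2⟩ := exists_degclass (j := j) D.base hQ hβ (m * k)
    refine ⟨Nat.card (gal Γ) * (m * k), Nat.mul_pos Nat.card_pos (Nat.mul_pos hm hk), a,
      ⟨_, ha1, fun β' E' hE' _ hd v => ?_⟩, ?_, ha2⟩
    · refine unit_of_dvd_nrm' (K := gal Γ) h1 fun r hr => ?_
      exact hd _ (ofDeg_section hr) v
    · obtain ⟨r, hr, hr0⟩ := exists_ne h1
      exact ⟨_, _, ha1, ofDeg_section hr, 0, nrm_ne_zero hr0⟩

end Pool.Agent.U201.CM
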